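import Pool.Agent.Lib.MP_4318ff_ag.All.Full

/-!
# Etale rigidity of Hirzebruch-Kummer coverings of rigid line configurations: the answer to Q1

THEOREM. Let `C` be a rigid configuration of `r` lines in the complex projective plane. Then `HK_C(n)` is etale rigid for all
sufficiently large `n` if and only if `r = 3` or `r ≥ 6`. More precisely, this equivalence holds for every single `n ≥ 4` with
`n ≥ r - 1`, and for `r = 6` (then `C` is the complete quadrangle) for every `n ≥ 4`.

Every configuration has `r ≥ 3`. The rigid configurations with `r = 4` or `r = 5` lines (four general lines; four lines with one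
triple point; five lines with two triple points) are the exceptions: for `n ≥ 4` the surface `HK_C(n)` has a nontrivial
deformation, in which all fibres are given by `∑ c_i y_i ^ n + X y_o ^ (n-2) y_e ^ 2 = 0` in the homogeneous coordinates
`y_i`, `y_i ^ n = ℓ_i`.

The definitions of the file `Pool/Agent/Lib/MP_4318ff_ag/Spec/Defs.lean`, with `k = ℂ`:

* `F ℂ = ℂ(x, y)` is the function field of the plane, `ev a` the value of the linear form `a` at the generic point `(1 : x : y)`.
* `Config ℂ r`: `r` pairwise different lines `ℓ i = 0`, not all through one point. `C.M`: the points of multiplicity at least 3.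
* `Chart C`: an affine chart of the blow-up `S` of the plane in `C.M`, given by a form `b ≠ 0` and forms `a P ≠ 0` through the
  points `P ∈ C.M`; its ring `R` is generated over `ℂ` by the quotients `c / b` (all `c`) and `c / a P` (`c` through `P`). It is
  the open subset of `S` where `b` and the strict transforms of the lines `a P = 0` do not vanish. The charts cover `S`, and the
  ring of the intersection of two charts is generated by their rings.
* `K` is a finite extension of `F ℂ`, `u.A K` the integral closure of `u.R` in `K`: the ring of the chart `u` of the normalisation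
  `Y` of `S` in `K`. The ring of the intersection of the charts `u` and `v` of `Y` is generated by `u.A K` and `v.A K`.
* `Kummer K C n`: the field generated by `F ℂ` and all `n`-th roots of quotients of lines, the function field of `X = HK_C(n)`.
  The normalisation of `S` in this field is smooth, and it is the minimal resolution of the normalisation of the plane: over a
  point of multiplicity `m ≥ 3` lie curves with the self-intersection `-n^(m-2)`. So it is `HK_C(n)`.
-/

set_option autoImplicit false

namespace Pool.Agent.Results.MP_4318ff_ag.EtaleRigidity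

open Pool.Agent.Lib.MP_4318ff_ag

/-- The configuration `C` is rigid: every small deformation `L` of its lines which preserves the incidences (for every point `P` of
multiplicity at least 3 the lines through `P` stay concurrent) is projectively equivalent to `C`. -/
def Rigid {r : ℕ} (C : Config ℂ r) : Prop :=
  ∃ ε : ℝ, 0 < ε ∧ ∀ L : Fin r → Fin 3 → ℂ, (∀ i a, ‖L i a - C.ℓ i a‖ < ε) →
    (∀ P ∈ C.M, ∃ p : Fin 3 → ℂ, p ≠ 0 ∧ ∀ i ∈ C.through P, L i ⬝ᵥ p = 0) →
    ∃ (g : Matrix (Fin 3) (Fin 3) ℂ) (s : Fin r → ℂ), g.det ≠ 0 ∧ (∀ i, s i ≠ 0) ∧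
      ∀ i, L i = s i • Matrix.vecMul (C.ℓ i) g

/-- `K` is the function field of a connected finite etale covering `Y` of the Hirzebruch-Kummer covering `X` of `C` with exponent
`n`: `K` is finite over `ℂ(x, y)`, all `n`-th roots of quotients of lines lie in `K`, and for every chart `u` the ring `A_u` of `Y`
is etale over the ring `A_u ∩ Kummer` of `X`. -/
structure EtaleCover {r : ℕ} (C : Config ℂ r) (n : ℕ) (K : Type) [Field K] [Algebra (F ℂ) K] : Prop where
  finite : FiniteDimensional (F ℂ) K
  roots : Roots K C n
  etale : ∀ u : Chart C, RingHom.Etale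
    (Subring.inclusion (inf_le_left : u.A K ⊓ (Kummer K C n).toSubring ≤ u.A K))

/-- `σ` is an automorphism of `K[[X]]` over `ℂ[[X]]` (that is, `σ X = X`) which is the identity modulo `X`. -/
def IsOne {K : Type} [Field K] [Algebra ℂ K] (σ : PowerSeries K ≃ₐ[ℂ] PowerSeries K) : Prop :=
  σ PowerSeries.X = PowerSeries.X ∧ ∀ f, PowerSeries.constantCoeff (σ f) = PowerSeries.constantCoeff f

/-- `σ` maps `A[[X]]` to `A[[X]]`. -/
def Preserves {K : Type} [Field K] [Algebra ℂ K] (A : Subring K) (σ : PowerSeries K ≃ₐ[ℂ] PowerSeries K) : Prop :=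
  ∀ f, (∀ m, PowerSeries.coeff m f ∈ A) → ∀ m, PowerSeries.coeff m (σ f) ∈ A

/-- A formal deformation of `Y` over `ℂ[[X]]`. A smooth affine variety has only trivial formal deformations, so a formal deformation
of `Y` is given by gluing the products of the charts with `Spf ℂ[[X]]` by automorphisms `g u v` of `(A_u A_v)[[X]]` over `ℂ[[X]]`
which are the identity modulo `X` and satisfy the cocycle condition. (Such an automorphism extends in exactly one way to
`K[[X]]`.) -/
structure Deformation {r : ℕ} (C : Config ℂ r) (K : Type) [Field K] [Algebra (F ℂ) K] [Algebra ℂ K]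
    (g : Chart C → Chart C → (PowerSeries K ≃ₐ[ℂ] PowerSeries K)) : Prop where
  one : ∀ u v, IsOne (g u v)
  preserves : ∀ u v, Preserves (u.A K ⊔ v.A K) (g u v)
  cocycle : ∀ u v w, g u v * g v w = g u w

/-- Every formal deformation of `Y` over `ℂ[[X]]` is trivial: `g u v = (h u)⁻¹ (h v)` for automorphisms `h u` of `A_u[[X]]`. This is
equivalent to the rigidity of the smooth projective surface `Y`: the Kuranishi space of `Y` is a point (possibly not reduced). -/
def FormallyRigid {r : ℕ} (C : Config ℂ r) (K : Type) [Field K] [Algebra (F ℂ) K] [Algebra ℂ K] : Prop :=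
  ∀ g : Chart C → Chart C → (PowerSeries K ≃ₐ[ℂ] PowerSeries K), Deformation C K g →
    ∃ h : Chart C → (PowerSeries K ≃ₐ[ℂ] PowerSeries K), (∀ u, IsOne (h u) ∧ Preserves (u.A K) (h u)) ∧
      ∀ u v, g u v = (h u)⁻¹ * h v

/-- `HK_C(n)` is etale rigid: all its connected finite etale coverings `Y` are rigid. (A finite etale covering is a disjoint union of
connected ones.) -/
def EtaleRigid {r : ℕ} (C : Config ℂ r) (n : ℕ) : Prop :=
  ∀ (K : Type) [Field K] [Algebra (F ℂ) K] [Algebra ℂ K] [IsScalarTower ℂ (F ℂ) K], EtaleCover C n K → FormallyRigid C K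

theorem etaleRigid_iff {r : ℕ} (C : Config ℂ r) (n : ℕ) :
    EtaleRigid C n ↔ Pool.Agent.Lib.MP_4318ff_ag.EtaleRigid C n := by
  constructor
  · intro h K _ _ _ _ hK g hg
    obtain ⟨t, ht, hg'⟩ := h K ⟨hK.finite, hK.roots, hK.etale⟩ g ⟨hg.isDef, hg.pre, hg.coc⟩
    exact ⟨t, ht, hg'⟩
  · intro h K _ _ _ _ hK g hg
    obtain ⟨t, ht, hg'⟩ := h K ⟨hK.finite, hK.roots, hK.etale⟩ g ⟨hg.one, hg.preserves, hg.cocycle⟩
    exact ⟨t, ht, hg'⟩

/-- The answer to Q1: the Hirzebruch-Kummer covering `HK_C(n)` of a rigid configuration `C` of `r` lines is etale rigid for all large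
`n` if and only if `r = 3` or `r ≥ 6`; the same holds for every single `n ≥ max(4, r - 1)`, and for every `n ≥ 4` if `r = 6`. -/
theorem result {r : ℕ} (C : Config ℂ r) (hC : Rigid C) :
    ((∃ N : ℕ, ∀ n : ℕ, N ≤ n → EtaleRigid C n) ↔ (r = 3 ∨ 6 ≤ r)) ∧
    (∀ n : ℕ, 4 ≤ n → (r - 1 ≤ n ∨ r = 6) → (EtaleRigid C n ↔ (r = 3 ∨ 6 ≤ r))) := by
  have hC' : C.Rigid := hC
  refine ⟨?_, fun n hn h => ?_⟩
  · simp only [etaleRigid_iff]
    exact full_large C hC'
  · rw [etaleRigid_iff]
    exact full_n C hC' n hn (by omega)

end Pool.Agent.Results.MP_4318ff_ag.EtaleRigidity
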