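import Pool.Agent.Lib.MP_4318ff_ag.Q.Fin0
import Pool.Agent.Lib.MP_4318ff_ag.Y.EtI
import Pool.Agent.Lib.MP_4318ff_ag.Ex.CQ

/-!
# Etale rigidity of Hirzebruch-Kummer coverings of infinitesimally rigid line configurations

THEOREM. Let `C` be a configuration of `r ≥ 6` lines in the complex projective plane which is infinitesimally rigid, and let
`n ≥ r - 1`, or `r = 6` (the complete quadrangle) and `n ≥ 4`. Then every connected finite etale covering `Y` of the
Hirzebruch-Kummer covering `HK_C(n)` satisfies `H^1(Y, T_Y) = 0`. So `HK_C(n)` is etale rigid.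

The definitions are those of `Pool/Agent/Lib/MP_4318ff_ag/Spec/Defs.lean` (with `k = ℂ`):

* `F ℂ = ℂ(x, y)` is the function field of the plane, `ev a` the value of the linear form `a` at the generic point `(1 : x : y)`.
* `Config ℂ r`: `r` pairwise different lines `ℓ i = 0`, not all through one point. `C.M`: the points of multiplicity at least 3.
* `Chart C`: an affine chart of the blow-up `S` of the plane in `C.M`, given by a form `b ≠ 0` and forms `a P ≠ 0` through the
  points `P ∈ C.M`; its ring `R` is generated over `ℂ` by the quotients `c / b` (all `c`) and `c / a P` (`c` through `P`).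
* `K` is a finite extension of `F ℂ`, `u.A K` the integral closure of `u.R` in `K`: the ring of the chart `u` of the normalisation
  `Y` of `S` in `K`. `Kummer K C n`: the field generated by `F ℂ` and all `n`-th roots of quotients of lines, the function field
  of `X = HK_C(n)`. (The normalisation of `S` in this field is smooth, and it is the minimal resolution of the normalisation of
  the plane: over a point of multiplicity `m ≥ 3` lie curves with the self-intersection `-n^(m-2)`.)
* `C.InfRigid`: every first order deformation of the lines which keeps the incidences is trivial.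
-/

set_option autoImplicit false

namespace Pool.Agent.Results.MP_4318ff_ag.InfRigid

open Pool.Agent.Lib.MP_4318ff_ag

/-- `K` is the function field of a connected finite etale covering `Y` of the Hirzebruch-Kummer covering `X` of `C` with exponent
`n`: `K` is finite over `ℂ(x, y)`, all `n`-th roots of quotients of lines lie in `K`, and for every chart `u` the ring `A_u` of `Y`
is etale over the ring `A_u ∩ Kummer` of `X`. -/
structure EtaleCover {r : ℕ} (C : Config ℂ r) (n : ℕ) (K : Type) [Field K] [Algebra (F ℂ) K] : Prop where
  finite : FiniteDimensional (F ℂ) K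
  roots : Roots K C n
  etale : ∀ u : Chart C, RingHom.Etale
    (Subring.inclusion (inf_le_left : u.A K ⊓ (Kummer K C n).toSubring ≤ u.A K))

/-- `H^1(Y, T_Y) = 0`, in terms of Cech cocycles for the cover by all affine charts: `D u v` is a vector field on the intersection
of the charts `u` and `v`, whose ring is generated by the rings of the two charts. -/
def H1Zero {r : ℕ} (C : Config ℂ r) (K : Type) [Field K] [Algebra (F ℂ) K] [Algebra ℂ K] : Prop :=
  ∀ D : Chart C → Chart C → Derivation ℂ K K,
    (∀ u v, ∀ x ∈ u.A K ⊔ v.A K, D u v x ∈ u.A K ⊔ v.A K) →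
    (∀ u v w, D u v + D v w = D u w) →
    ∃ E : Chart C → Derivation ℂ K K, (∀ u, ∀ x ∈ u.A K, E u x ∈ u.A K) ∧ ∀ u v, D u v = E v - E u

/-- Every connected finite etale covering `Y` of the Hirzebruch-Kummer covering `HK_C(n)` of an infinitesimally rigid configuration
`C` of `r ≥ 6` lines is infinitesimally rigid, if `n ≥ r - 1`, or if `r = 6` and `n ≥ 4`. -/
theorem result (r n : ℕ) (C : Config ℂ r) (hC : C.InfRigid) (hr : 6 ≤ r) (hn : r - 1 ≤ n ∨ (r = 6 ∧ 4 ≤ n))
    (K : Type) [Field K] [Algebra (F ℂ) K] [Algebra ℂ K] [IsScalarTower ℂ (F ℂ) K] (hK : EtaleCover C n K) : H1Zero C K :=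
  h1_of_S1 ℂ s1_complex r n C hC hr (by omega) (by omega) K ⟨hK.finite, hK.roots, hK.etale⟩

/-- The complete quadrangle, for all `n ≥ 4`. -/
theorem quadrangle (n : ℕ) (hn : 4 ≤ n) (K : Type) [Field K] [Algebra (F ℂ) K] [Algebra ℂ K] [IsScalarTower ℂ (F ℂ) K]
    (hK : EtaleCover (CQ ℂ) n K) : H1Zero (CQ ℂ) K :=
  result 6 n (CQ ℂ) CQ_infRigid le_rfl (Or.inr ⟨rfl, hn⟩) K hK

end Pool.Agent.Results.MP_4318ff_ag.InfRigid
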